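import Pool.Agent.T2H64.EN.DiscMain

/-!
# Polynomial dilates of `e^m`

Let `P_m`, `m = n₀, n₀ + 1, …`, be real polynomials of degree at most `D + 1` in `k`, whose coefficient of `k^(D+1)` is
`b_m x_m + c_m · v_m` with integers `b_m ≠ 0`, `c_mi` of size at most `e^(κ m)`, where `x_(m+1) = (p/q) e^s x_m` and
`v_(m+1) = M v_m / q` with rational numbers and matrices of subexponential height; for instance `x_m = ξ e^m`, `P_m(k) = ξ e^m k^(D+1)`,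
`e^m (k + θ)^(D+1)`, `(e^m + θ 2^m) k^(D+1) + Q_m(k)` with arbitrary real polynomials `Q_m` of degree at most `D`.
The sequences `e(P_m(k))`, `k < K`, `K ≥ e^(δ n)`, for `m` in an interval `[n, n + n^κ]` are almost orthogonal (large sieve inequality
with a constant independent of `n`), and for all but `A N^(-κ) K` of the integers `k < K`, `K ≥ e^(δ N)`, the discrepancy of
`P_m(k)`, `n₀ ≤ m ≤ N`, is at most `A N^(1-κ)`.
-/

set_option autoImplicit false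

namespace Pool.Agent.Results.MP_9056e9_nt.PolynomialDilates

open Finset Polynomial Pool.Agent.T2H64.EN

/-- the (not normalised) discrepancy of `y m`, `n₀ ≤ m ≤ N`, modulo one, for the interval `[α, β)` -/
noncomputable def discr (n₀ N : ℕ) (y : ℕ → ℝ) (α β : ℝ) : ℝ :=
  |({m : ℕ | n₀ ≤ m ∧ m ≤ N ∧ α ≤ Int.fract (y m) ∧ Int.fract (y m) < β}.ncard : ℝ) -
    (β - α) * ((N : ℝ) + 1 - n₀)|

/-- **Theorem.** Let `s ≠ 0` be rational, `0 < η ≤ 1`, `0 < δ ≤ 1`, `B` real, `D, d` natural numbers. `Expo s B η n₀ x`: for `m ≥ n₀`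
`x_(m+1) = (p/q) e^s x_m` with nonzero integers `p, q` of absolute value at most `exp (B m^(1-η))`, and `e^(η m) ≤ |x_m| ≤ e^(m/η)`.
`Cocycle B η n₀ v`: for `m ≥ n₀` `v_(m+1) = M v_m / q`, `M` an integer matrix, `q ≠ 0` an integer, all of size at most
`exp (B m^(1-η))`. `Lead D κ x v P m`: `P` has degree at most `D + 1` and the coefficient `b x_m + c · v_m` at `D + 1`, with
integers `b ≠ 0`, `c_i` of absolute value at most `e^(κ m)`.

(i) There are `κ > 0` and `n₁` such that for all `n₀`, all such `x, v`, all `n ≥ n₀, n₁`, all real polynomials `P_m`,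
`n ≤ m ≤ n + n^κ`, with `Lead D κ x v P_m m`, all integers `K ≥ e^(δ n)` and all complex numbers `z_m`
`∑_(k < K) |∑_m z_m e(P_m(k))|² ≤ (den(s) ⌈192 (d + 3) / (δ η)⌉ + 1) K ∑_m |z_m|²`; here `m` runs over any set of integers in
`[n, n + n^κ]`.

(ii) There are `κ > 0` and `A` such that for all `n₀`, all such `x, v`, all `N ≥ 1, n₀`, all real polynomials `P_m`, `n₀ ≤ m ≤ N`, with
`Lead D κ x v P_m m`, and all integers `K ≥ e^(δ N)` at most `A N^(-κ) K` of the integers `0 ≤ k < K` have the property that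
`|#{n₀ ≤ m ≤ N : α ≤ {P_m(k)} < β} - (β - α) (N + 1 - n₀)| > A N^(1-κ)` for some `0 ≤ α < β ≤ 1`. -/
theorem result (D d : ℕ) (s : ℚ) (hs : s ≠ 0) (B η δ : ℝ) (hη : 0 < η) (hη1 : η ≤ 1)
    (hδ : 0 < δ) (hδ1 : δ ≤ 1) :
    (∃ (κ : ℝ) (n₁ : ℕ), 0 < κ ∧ ∀ (n₀ : ℕ) (x : ℕ → ℝ) (v : ℕ → Fin d → ℝ),
      Expo s B η n₀ x → Cocycle B η n₀ v → ∀ n, n₀ ≤ n → n₁ ≤ n →
      ∀ S : Finset ℕ, (∀ m ∈ S, n ≤ m ∧ (m : ℝ) ≤ n + (n : ℝ) ^ κ) →
      ∀ P : ℕ → ℝ[X], (∀ m ∈ S, Lead D κ x v (P m) m) →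
      ∀ K : ℕ, Real.exp (δ * n) ≤ K → ∀ z : ℕ → ℂ,
      ∑ k ∈ range K, ‖∑ m ∈ S, z m *
          Complex.exp (2 * Real.pi * ((P m).eval (k : ℝ) : ℝ) * Complex.I)‖ ^ 2 ≤
        ((s.den * ⌈192 * ((d : ℝ) + 3) / (δ * η)⌉₊ + 1 : ℕ) : ℝ) * K * ∑ m ∈ S, ‖z m‖ ^ 2) ∧
    ∃ κ A : ℝ, 0 < κ ∧ ∀ (n₀ : ℕ) (x : ℕ → ℝ) (v : ℕ → Fin d → ℝ),
      Expo s B η n₀ x → Cocycle B η n₀ v → ∀ N : ℕ, 1 ≤ N → n₀ ≤ N →
      ∀ P : ℕ → ℝ[X], (∀ m, n₀ ≤ m → m ≤ N → Lead D κ x v (P m) m) →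
      ∀ K : ℕ, Real.exp (δ * N) ≤ K →
      ({k : ℕ | k < K ∧ ∃ α β : ℝ, 0 ≤ α ∧ α < β ∧ β ≤ 1 ∧
        A * (N : ℝ) ^ (1 - κ) < discr n₀ N (fun m => (P m).eval (k : ℝ)) α β}.ncard : ℝ) ≤
        A * (N : ℝ) ^ (-κ) * K := by
  classical
  constructor
  · obtain ⟨κ, hκ, -, n₁, h⟩ := sieve_window D d s hs B η δ hη hη1 hδ hδ1
    exact ⟨κ, n₁, hκ, h⟩
  · obtain ⟨κ, A, hκ, h⟩ := disc_main D d s hs B η δ hη hη1 hδ hδ1
    refine ⟨κ, A, hκ, fun n₀ x v hx hv N hN hn₀ P hP K hK => ?_⟩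
    refine le_trans (le_of_eq ?_) (h n₀ x v hx hv N hN hn₀ P
      (fun m hm => hP m (mem_Icc.1 hm).1 (mem_Icc.1 hm).2) K hK)
    rw [← Set.ncard_coe_finset]
    congr 2
    ext k
    rw [Finset.mem_coe, mem_filter, mem_range, Set.mem_ofPred_eq]
    have hcard : ((Icc n₀ N).card : ℝ) = (N : ℝ) + 1 - n₀ := by
      rw [Nat.card_Icc, Nat.cast_sub (by omega)]
      push_cast
      ring
    have hset : ∀ α β : ℝ, discr n₀ N (fun m => (P m).eval (k : ℝ)) α β =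
        |(((Icc n₀ N).filter (fun m => α ≤ Int.fract ((P m).eval (k : ℝ)) ∧
          Int.fract ((P m).eval (k : ℝ)) < β)).card : ℝ) - (β - α) * ((Icc n₀ N).card : ℝ)| := by
      intro α β
      unfold discr
      rw [hcard, ← Set.ncard_coe_finset]
      congr 5
      ext m
      simp [and_assoc]
    simp only [hset]

end Pool.Agent.Results.MP_9056e9_nt.PolynomialDilates
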