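import Pool.Agent.T2H64.PI.Span
import Pool.Agent.H771R3.EN.ARC

/-!
# The powers of `π`

Let `δ > 0` and let `h` be a natural number with `log (2h + 1) ≥ 4 ((d + 1) / δ + d) + 9/4`. Among the numbers
`X, X π², X π⁴, …, X π^(2h)`, `X` a large real number, at least one is not closer than `X^(-δ)` to an integer (`d = 0`), and not
closer than `X^(-δ)` to the numbers `(a + c_1 t_1 + … + c_d t_d) / b` for integers `a, b ≠ 0, c_i`, `|b|, |c_i| ≤ X^κ`, for arbitrary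
real numbers `t_1, …, t_d`, which may even be moved by rational matrices of height `≤ X^κ` from one of the numbers to the next.
Hence for `ξ ≠ 0` the set of the `m` for which `ξ π^m` is closer than `(|ξ| π^m)^(-δ)` to such a number has upper density at most
`h / (h + 1)`. The proof uses positive linear forms in `1, π², …, π^(2h)` with integer coefficients, which come from the convolution
powers of `(2 sin (y / 2))^(2n)` (Hermite–Padé approximations of the exponential function).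
-/

set_option autoImplicit false

namespace Pool.Agent.Results.MP_9056e9_nt.PowersOfPi

open Finset

/-- `q x_(m+1) = p π x_m` and `q' v_(m+1) = M v_m` with nonzero integers `p, q, q'` and an integer matrix `M`, all of absolute
value at most `H` -/
def Step {d : ℕ} (H : ℝ) (x : ℕ → ℝ) (v : ℕ → Fin d → ℝ) (m : ℕ) : Prop :=
  (∃ p q : ℤ, p ≠ 0 ∧ q ≠ 0 ∧ |(p : ℝ)| ≤ H ∧ |(q : ℝ)| ≤ H ∧
    q * x (m + 1) = p * (Real.pi * x m)) ∧
  ∃ (q : ℤ) (M : Fin d → Fin d → ℤ), q ≠ 0 ∧ |(q : ℝ)| ≤ H ∧ (∀ i j, |(M i j : ℝ)| ≤ H) ∧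
    ∀ i, q * v (m + 1) i = ∑ j, M i j * v m j

/-- `ξ π ^ m` is closer than `(|ξ| π ^ m) ^ (-δ) / |b|` to `(a + c · t) / b` for some integers `a, b ≠ 0, c_i` with
`|b|, |c_i| ≤ (|ξ| π ^ m) ^ κ` -/
def Close {d : ℕ} (κ δ ξ : ℝ) (t : Fin d → ℝ) (m : ℕ) : Prop :=
  ∃ (a b : ℤ) (c : Fin d → ℤ), b ≠ 0 ∧ |(b : ℝ)| ≤ (|ξ| * Real.pi ^ m) ^ κ ∧
    (∀ i, |(c i : ℝ)| ≤ (|ξ| * Real.pi ^ m) ^ κ) ∧
    |a + b * (ξ * Real.pi ^ m) + ∑ i, c i * t i| < (|ξ| * Real.pi ^ m) ^ (-δ)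

theorem window (d h : ℕ) (δ : ℝ) (hδ : 0 < δ)
    (hh : 4 * (((d : ℝ) + 1) / δ + d) + 9 / 4 ≤ Real.log (2 * h + 1)) :
    ∃ κ X₀ : ℝ, 0 < κ ∧ ∀ (x : ℕ → ℝ) (v : ℕ → Fin d → ℝ) (n : ℕ), X₀ ≤ |x n| →
      (∀ m, n ≤ m → m < n + 2 * h → Step (|x n| ^ κ) x v m) →
      ∃ g ≤ h, ∀ (a b : ℤ) (c : Fin d → ℤ), b ≠ 0 → |(b : ℝ)| ≤ |x n| ^ κ →
        (∀ i, |(c i : ℝ)| ≤ |x n| ^ κ) →
        |x n| ^ (-δ) ≤ |a + b * x (n + 2 * g) + ∑ i, c i * v (n + 2 * g) i| := by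
  obtain ⟨κ, hκ, T₀, H⟩ := Pool.Agent.T2H64.PI.span d h δ hδ hh
  refine ⟨κ, Real.exp T₀, hκ, fun x v n hX hstep => ?_⟩
  have hx0 : 0 < |x n| := (Real.exp_pos _).trans_le hX
  have hT : T₀ ≤ Real.log |x n| := by
    rw [Real.le_log_iff_exp_le hx0]
    exact hX
  have e : ∀ y : ℝ, |x n| ^ y = Real.exp (y * Real.log |x n|) := by
    intro y
    rw [Real.rpow_def_of_pos hx0, mul_comm]
  rw [e] at hstep
  obtain ⟨g, hg, hfar⟩ := H x v n (Real.log |x n|) hT (Real.exp_log hx0).symm hstep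
  refine ⟨g, hg, fun a b c hb hb1 hc1 => ?_⟩
  have h1 := hfar a b c hb (by rw [← e]; exact hb1) (fun i => by rw [← e]; exact hc1 i)
  rw [e, neg_mul]
  exact h1

theorem density (d h : ℕ) (δ : ℝ) (hδ : 0 < δ)
    (hh : 4 * (((d : ℝ) + 1) / δ + d) + 9 / 4 ≤ Real.log (2 * h + 1)) :
    ∃ κ : ℝ, 0 < κ ∧ ∀ (ξ : ℝ) (t : Fin d → ℝ), ξ ≠ 0 → ∃ C : ℝ, ∀ N : ℕ,
      ({m : ℕ | 1 ≤ m ∧ m ≤ N ∧ Close κ δ ξ t m}.ncard : ℝ) ≤ h / (h + 1) * N + C := by
  classical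
  obtain ⟨κ, X₀, hκ, H⟩ := window d h δ hδ hh
  have hpi := Real.pi_pos
  have hpi1 : 1 < Real.pi := by linarith [Real.pi_gt_three]
  refine ⟨κ / 2, by positivity, fun ξ t hξ => ?_⟩
  have hξ0 : 0 < |ξ| := abs_pos.2 hξ
  -- all large `n`
  obtain ⟨n₀, hn₀⟩ : ∃ n₀ : ℕ, ∀ n, n₀ ≤ n → max X₀ (Real.pi ^ (2 * h)) ≤ |ξ| * Real.pi ^ n := by
    obtain ⟨n₀, h1⟩ := pow_unbounded_of_one_lt (max X₀ (Real.pi ^ (2 * h)) / |ξ|) hpi1
    refine ⟨n₀, fun n hn => ?_⟩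
    have h2 : Real.pi ^ n₀ ≤ Real.pi ^ n := pow_le_pow_right₀ hpi1.le hn
    have h3 := h1.le.trans h2
    rw [div_le_iff₀ hξ0] at h3
    linarith
  have hgood : ∀ n, n₀ ≤ n → ∃ g ≤ h, ¬ Close (κ / 2) δ ξ t (n + 2 * g) := by
    intro n hn
    have hX := hn₀ n hn
    have habs : |ξ * Real.pi ^ n| = |ξ| * Real.pi ^ n := by
      rw [abs_mul, abs_of_pos (pow_pos hpi n)]
    have hX1 : 1 ≤ |ξ| * Real.pi ^ n :=
      (one_le_pow₀ hpi1.le).trans ((le_max_right _ _).trans hX)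
    obtain ⟨g, hg, hfar⟩ := H (fun m => ξ * Real.pi ^ m) (fun _ => t) n (by
      rw [habs]
      exact (le_max_left _ _).trans hX) (by
      intro m _ _
      rw [habs]
      have h1 : (1 : ℝ) ≤ (|ξ| * Real.pi ^ n) ^ κ := Real.one_le_rpow hX1 hκ.le
      refine ⟨⟨1, 1, one_ne_zero, one_ne_zero, by simpa using h1, by simpa using h1, ?_⟩,
        ⟨1, fun i j => if i = j then 1 else 0, one_ne_zero, by simpa using h1, ?_, ?_⟩⟩
      · push_cast
        rw [pow_succ]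
        ring
      · intro i j
        dsimp only
        split_ifs
        · simpa using h1
        · simp only [Int.cast_zero, abs_zero]
          linarith
      · intro i
        simp)
    refine ⟨g, hg, ?_⟩
    rintro ⟨a, b, c, hb, hb1, hc1, hlt⟩
    have hle : |ξ| * Real.pi ^ n ≤ |ξ| * Real.pi ^ (n + 2 * g) :=
      mul_le_mul_of_nonneg_left (pow_le_pow_right₀ hpi1.le (by omega)) hξ0.le
    have hle2 : (|ξ| * Real.pi ^ (n + 2 * g)) ^ (κ / 2) ≤ (|ξ| * Real.pi ^ n) ^ κ := by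
      have h1 : |ξ| * Real.pi ^ (n + 2 * g) ≤ (|ξ| * Real.pi ^ n) ^ (2 : ℕ) := by
        rw [pow_add, sq, ← mul_assoc]
        refine mul_le_mul_of_nonneg_left ?_ (by positivity)
        exact (pow_le_pow_right₀ hpi1.le (by omega)).trans ((le_max_right _ _).trans hX)
      calc (|ξ| * Real.pi ^ (n + 2 * g)) ^ (κ / 2) ≤ ((|ξ| * Real.pi ^ n) ^ (2 : ℕ)) ^ (κ / 2) :=
            Real.rpow_le_rpow (by positivity) h1 (by positivity)
        _ = (|ξ| * Real.pi ^ n) ^ κ := by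
            rw [← Real.rpow_natCast, ← Real.rpow_mul (by positivity)]
            congr 1
            push_cast
            ring
    have h2 := hfar a b c hb (by rw [habs]; exact hb1.trans hle2)
      (fun i => by rw [habs]; exact (hc1 i).trans hle2)
    rw [habs] at h2
    have h3 : (|ξ| * Real.pi ^ (n + 2 * g)) ^ (-δ) ≤ (|ξ| * Real.pi ^ n) ^ (-δ) :=
      Real.rpow_le_rpow_of_nonpos (by positivity) hle (by linarith)
    linarith
  -- counting
  refine ⟨n₀ + 2 * h, fun N => ?_⟩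
  have hcov := Pool.Agent.H771R3.EN.arc_cover (fun m => Close (κ / 2) δ ξ t m) N n₀ (2 * h + 2)
    (by omega) (2 * h : ℝ) (by positivity) (by
    intro i _
    obtain ⟨s, hs⟩ : ∃ s, s = n₀ + i * (2 * h + 2) := ⟨_, rfl⟩
    rw [← hs]
    obtain ⟨g₁, hg₁, hf₁⟩ := hgood s (by omega)
    obtain ⟨g₂, hg₂, hf₂⟩ := hgood (s + 1) (by omega)
    have hsub : (range (2 * h + 2)).filter (fun j => Close (κ / 2) δ ξ t (s + j)) ⊆
        ((range (2 * h + 2)).erase (2 * g₁)).erase (2 * g₂ + 1) := by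
      intro j hj
      rw [mem_filter] at hj
      rw [mem_erase, mem_erase]
      refine ⟨?_, ?_, hj.1⟩
      · rintro rfl
        apply hf₂
        have : s + 1 + 2 * g₂ = s + (2 * g₂ + 1) := by ring
        rw [this]
        exact hj.2
      · rintro rfl
        exact hf₁ hj.2
    have hcard := card_le_card hsub
    rw [card_erase_of_mem (by
      rw [mem_erase, mem_range]
      constructor <;> omega), card_erase_of_mem (by rw [mem_range]; omega), card_range] at hcard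
    have : ((range (2 * h + 2)).filter (fun j => Close (κ / 2) δ ξ t (s + j))).card ≤ 2 * h := by
      omega
    exact_mod_cast this)
  have hset : {m : ℕ | 1 ≤ m ∧ m ≤ N ∧ Close (κ / 2) δ ξ t m} =
      (((Icc 1 N).filter (fun m => Close (κ / 2) δ ξ t m) : Finset ℕ) : Set ℕ) := by
    ext m
    simp [and_assoc]
  rw [hset, Set.ncard_coe_finset]
  refine hcov.trans ?_
  have hh0 : (0 : ℝ) ≤ h := Nat.cast_nonneg h
  have h1 : ((N / (2 * h + 2) : ℕ) : ℝ) ≤ N / (2 * h + 2) := by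
    have := Nat.cast_div_le (α := ℝ) (m := N) (n := 2 * h + 2)
    push_cast at this
    exact this
  have h2 : ((N / (2 * h + 2) + 1 : ℕ) : ℝ) * (2 * h) ≤ (N / (2 * h + 2) + 1) * (2 * h) := by
    push_cast
    gcongr
  have h3 : ((N : ℝ) / (2 * h + 2) + 1) * (2 * h) = h / (h + 1) * N + 2 * h := by
    field_simp
  linarith

/-- **Theorem.** Let `δ > 0`, let `d, h` be natural numbers with `log (2h + 1) ≥ 4 ((d + 1) / δ + d) + 9/4`.

(i) There are `κ > 0` and `X₀` such that for all real sequences `x`, all sequences `v` in `ℝ^d` and all `n` with `|x_n| ≥ X₀` which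
satisfy `Step (|x_n|^κ) x v m` for `n ≤ m < n + 2h`, there is a `g ≤ h` such that for all integers `a, b, c_1, …, c_d` with `b ≠ 0` and
`|b|, |c_i| ≤ |x_n|^κ` the absolute value of `a + b x_(n+2g) + c · v_(n+2g)` is at least `|x_n|^(-δ)`.

(ii) There is `κ > 0` such that for all `ξ ≠ 0` and `t ∈ ℝ^d` there is `C` such that for all `N` at most `h/(h+1) N + C` of the
integers `1 ≤ m ≤ N` satisfy `Close κ δ ξ t m`. -/
theorem result (d h : ℕ) (δ : ℝ) (hδ : 0 < δ)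
    (hh : 4 * (((d : ℝ) + 1) / δ + d) + 9 / 4 ≤ Real.log (2 * h + 1)) :
    (∃ κ X₀ : ℝ, 0 < κ ∧ ∀ (x : ℕ → ℝ) (v : ℕ → Fin d → ℝ) (n : ℕ), X₀ ≤ |x n| →
      (∀ m, n ≤ m → m < n + 2 * h → Step (|x n| ^ κ) x v m) →
      ∃ g ≤ h, ∀ (a b : ℤ) (c : Fin d → ℤ), b ≠ 0 → |(b : ℝ)| ≤ |x n| ^ κ →
        (∀ i, |(c i : ℝ)| ≤ |x n| ^ κ) →
        |x n| ^ (-δ) ≤ |a + b * x (n + 2 * g) + ∑ i, c i * v (n + 2 * g) i|) ∧
    ∃ κ : ℝ, 0 < κ ∧ ∀ (ξ : ℝ) (t : Fin d → ℝ), ξ ≠ 0 → ∃ C : ℝ, ∀ N : ℕ,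
      ({m : ℕ | 1 ≤ m ∧ m ≤ N ∧ Close κ δ ξ t m}.ncard : ℝ) ≤ h / (h + 1) * N + C :=
  ⟨window d h δ hδ hh, density d h δ hδ hh⟩

end Pool.Agent.Results.MP_9056e9_nt.PowersOfPi
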