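import Pool.Agent.T2H64.EN.Final

/-!
# The numbers `x_n`, for instance `ξ e^n`, and holonomic sequences

`x_(n+1) = (p_n / q_n) e^s x_n` with a fixed rational number `s ≠ 0` and integers `p_n, q_n ≠ 0` of subexponential size, for
instance `x_n = ξ e^n`, `n^k e^n`, `(3 e / 2)^n`, `(3 / e)^n` (`expo_pow`: `ξ (r e^s)^n` for rational `r > 0`, `s ≠ 0` with
`r e^s > 1`). The vectors `v_n` of `d` real numbers satisfy `v_(n+1) = M_n v_n / q_n` with integer matrices `M_n` and integers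
`q_n ≠ 0` of subexponential size; for instance (`cocycle_rec`) the vectors `(u_n, …, u_(n+d-1))` for each solution `u` of a linear
recurrence of order `d` whose coefficients are integers of subexponential size (polynomials in `n`, …), with arbitrary real initial
values. In each interval `[n, n + n^κ]`, `n ≥ n₁`, there are at most `den(s) ⌈48 (d + 2) / (δ η)⌉` integers `m` for which some
`a + b x_m + c · v_m` with integers `b ≠ 0`, `|b|, |c_i| ≤ e^(κ m)`, has absolute value less than `e^(-δ m)`.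
-/

set_option autoImplicit false

namespace Pool.Agent.Results.MP_9056e9_nt.RationalCocycles

open Pool.Agent.T2H64.EN

/-- **Theorem.** Let `s ≠ 0` be rational, `0 < η ≤ 1`, `0 < δ ≤ 1`, `B` real and `d` a natural number. There are `κ > 0`, `A` and
`n₁` such that for all `n₀`, all real sequences `x` with `Expo s B η n₀ x` (for `n ≥ n₀`: `x_(n+1) = (p/q) e^s x_n` with integers
`p, q ≠ 0`, `|p|, |q| ≤ exp (B n^(1-η))`, and `e^(η n) ≤ |x_n| ≤ e^(n/η)`) and all sequences `v` in `ℝ^d` with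
`Cocycle B η n₀ v` (for `n ≥ n₀`: `v_(n+1) = M v_n / q`, with an integer matrix `M` and an integer `q ≠ 0`, `|q|` and the entries of `M`
at most `exp (B n^(1-η))`) the following holds. `Close κ δ x v m` means that there are integers `a`, `b ≠ 0`, `c_1, …, c_d` with
`|b|, |c_i| ≤ e^(κ m)` and `|a + b x_m + c_1 v_m1 + … + c_d v_md| < e^(-δ m)`. For all `n ≥ n₀, n₁` at most
`den(s) ⌈48 (d + 2) / (δ η)⌉` of the integers `n ≤ m ≤ n + n^κ`, and for all `N ≥ 1` at most `A N^(1 - κ/2)` of the integers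
`n₀ ≤ m ≤ N` satisfy `Close κ δ x v m`. -/
theorem result (d : ℕ) (s : ℚ) (hs : s ≠ 0) (B η δ : ℝ) (hη : 0 < η) (hη1 : η ≤ 1)
    (hδ : 0 < δ) (hδ1 : δ ≤ 1) : ∃ (κ A : ℝ) (n₁ : ℕ), 0 < κ ∧ ∀ (n₀ : ℕ) (x : ℕ → ℝ)
      (v : ℕ → Fin d → ℝ), Expo s B η n₀ x → Cocycle B η n₀ v →
      (∀ n, n₀ ≤ n → n₁ ≤ n →
        {m : ℕ | n ≤ m ∧ (m : ℝ) ≤ n + (n : ℝ) ^ κ ∧ Close κ δ x v m}.ncard ≤
          s.den * ⌈48 * ((d : ℝ) + 2) / (δ * η)⌉₊) ∧
      ∀ N : ℕ, 1 ≤ N → ({m : ℕ | n₀ ≤ m ∧ m ≤ N ∧ Close κ δ x v m}.ncard : ℝ) ≤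
        A * (N : ℝ) ^ (1 - κ / 2) :=
  main d s hs B η δ hη hη1 hδ hδ1

/-- the vectors `(u_n, …, u_(n+d-1))` of a solution of a linear recurrence form a cocycle -/
theorem cocycle_rec (d : ℕ) (u : ℕ → ℝ) (B η : ℝ) (hB : 0 ≤ B) (n₀ : ℕ)
    (h : ∀ n, n₀ ≤ n → ∃ (q : ℤ) (p : Fin d → ℤ), q ≠ 0 ∧
      |(q : ℝ)| ≤ Real.exp (B * (n : ℝ) ^ (1 - η)) ∧
      (∀ k, |(p k : ℝ)| ≤ Real.exp (B * (n : ℝ) ^ (1 - η))) ∧
      q * u (n + d) = ∑ k, p k * u (n + k)) :
    Cocycle B η n₀ (fun n (i : Fin d) => u (n + i)) := by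
  intro n hn
  obtain ⟨q, p, hq, hq1, hp1, hu⟩ := h n hn
  have h1 : (1 : ℝ) ≤ Real.exp (B * (n : ℝ) ^ (1 - η)) := Real.one_le_exp (by positivity)
  refine ⟨q, fun i j => if (i : ℕ) + 1 < d then (if (j : ℕ) = i + 1 then q else 0) else p j, hq,
    hq1, ?_, ?_⟩
  · intro i j
    dsimp only
    split_ifs
    · exact hq1
    · simp only [Int.cast_zero, abs_zero]
      exact (Real.exp_pos _).le
    · exact hp1 j
  · intro i
    dsimp only
    by_cases hi : (i : ℕ) + 1 < d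
    · simp only [hi, if_true]
      rw [Finset.sum_eq_single (⟨(i : ℕ) + 1, hi⟩ : Fin d)]
      · simp only [if_true]
        congr 2
        omega
      · intro j _ hj
        have : (j : ℕ) ≠ i + 1 := fun h => hj (Fin.ext h)
        simp [this]
      · intro h
        exact absurd (Finset.mem_univ _) h
    · simp only [hi, if_false]
      have : (i : ℕ) + 1 = d := by have := i.2; omega
      rw [← hu]
      congr 2
      omega

/-- the powers of the numbers `r e^s > 1` -/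
theorem expo_pow (r s : ℚ) (hr : 0 < r) (ξ : ℝ) (hξ : ξ ≠ 0) (hx : 1 < (r : ℝ) * Real.exp s) :
    ∃ (B η : ℝ) (n₀ : ℕ), 0 ≤ B ∧ 0 < η ∧ η ≤ 1 ∧ Expo s B η n₀ (fun n => ξ * (r * Real.exp s) ^ n) := by
  obtain ⟨y, hy⟩ : ∃ y, y = Real.log ((r : ℝ) * Real.exp s) := ⟨_, rfl⟩
  have hy0 : 0 < y := by rw [hy]; exact Real.log_pos hx
  have hx0 : 0 < (r : ℝ) * Real.exp s := by linarith
  obtain ⟨L, hL⟩ : ∃ L, L = Real.log |ξ| := ⟨_, rfl⟩
  have hξ0 : 0 < |ξ| := abs_pos.2 hξ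
  obtain ⟨B, hB⟩ : ∃ B : ℝ, B = (r.num.natAbs : ℝ) + r.den := ⟨_, rfl⟩
  have hn0 : (0 : ℝ) ≤ r.num.natAbs := Nat.cast_nonneg _
  have hd0 : (0 : ℝ) ≤ r.den := Nat.cast_nonneg _
  have hB0 : 0 ≤ B := by rw [hB]; positivity
  obtain ⟨η, hη⟩ : ∃ η : ℝ, η = min (y / 2) (1 / (y + 1)) := ⟨_, rfl⟩
  have hη0 : 0 < η := by rw [hη]; exact lt_min (by positivity) (by positivity)
  have hηy : η ≤ y / 2 := by rw [hη]; exact min_le_left _ _
  have hηy' : η ≤ 1 / (y + 1) := by rw [hη]; exact min_le_right _ _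
  have hη1 : η ≤ 1 := hηy'.trans (by rw [div_le_one (by positivity)]; linarith)
  refine ⟨B, η, ⌈|L| / (y / 2)⌉₊ + ⌈|L|⌉₊ + 1, hB0, hη0, hη1, fun n hn => ⟨?_, ?_⟩⟩
  · refine ⟨r.num, r.den, Rat.num_ne_zero.2 hr.ne', by exact_mod_cast r.den_pos.ne', ?_, ?_, ?_⟩
    · have e1 : |(r.num : ℝ)| = r.num.natAbs := by
        rw [← Int.cast_abs, Int.abs_eq_natAbs]
        simp
      rw [e1]
      have h1 : (1 : ℝ) ≤ (n : ℝ) ^ (1 - η) :=
        Real.one_le_rpow (by exact_mod_cast (by omega : 1 ≤ n)) (by linarith)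
      calc ((r.num.natAbs : ℕ) : ℝ) ≤ B * 1 := by rw [hB]; linarith
        _ ≤ B * (n : ℝ) ^ (1 - η) := mul_le_mul_of_nonneg_left h1 hB0
        _ ≤ _ := by linarith [Real.add_one_le_exp (B * (n : ℝ) ^ (1 - η))]
    · have h1 : (1 : ℝ) ≤ (n : ℝ) ^ (1 - η) :=
        Real.one_le_rpow (by exact_mod_cast (by omega : 1 ≤ n)) (by linarith)
      have e1 : |(((r.den : ℕ) : ℤ) : ℝ)| = r.den := by
        push_cast
        exact abs_of_nonneg hd0
      rw [e1]
      calc ((r.den : ℕ) : ℝ) ≤ B * 1 := by rw [hB]; linarith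
        _ ≤ B * (n : ℝ) ^ (1 - η) := mul_le_mul_of_nonneg_left h1 hB0
        _ ≤ _ := by linarith [Real.add_one_le_exp (B * (n : ℝ) ^ (1 - η))]
    · dsimp only
      have h1 : (r : ℝ) * r.den = r.num := by exact_mod_cast Rat.mul_den_eq_num r
      rw [pow_succ, ← h1]
      push_cast
      ring
  · have habs : |ξ * (r * Real.exp s) ^ n| = Real.exp (L + n * y) := by
      rw [abs_mul, abs_of_pos (pow_pos hx0 n), Real.exp_add, hL, Real.exp_log hξ0, hy,
        Real.exp_nat_mul, Real.exp_log hx0]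
    dsimp only
    rw [habs]
    have hnL : |L| / (y / 2) ≤ n := by
      refine (Nat.le_ceil _).trans ?_
      exact_mod_cast (by omega : ⌈|L| / (y / 2)⌉₊ ≤ n)
    have hnL' : |L| ≤ n := by
      refine (Nat.le_ceil _).trans ?_
      exact_mod_cast (by omega : ⌈|L|⌉₊ ≤ n)
    rw [div_le_iff₀ (by positivity)] at hnL
    have hn1 : (0 : ℝ) ≤ n := Nat.cast_nonneg n
    refine ⟨Real.exp_le_exp.2 ?_, Real.exp_le_exp.2 ?_⟩
    · have h1 := neg_abs_le L
      have h2 : η * n ≤ y / 2 * n := mul_le_mul_of_nonneg_right hηy hn1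
      linarith
    · have h1 := le_abs_self L
      rw [le_div_iff₀ hη0]
      have h2 : (L + n * y) * η ≤ (n * (y + 1)) * (1 / (y + 1)) := by
        refine mul_le_mul (by linarith) hηy' hη0.le (by positivity)
      have h3 : ((n : ℝ) * (y + 1)) * (1 / (y + 1)) = n := by field_simp
      linarith

end Pool.Agent.Results.MP_9056e9_nt.RationalCocycles
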